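import Pool.Agent.Results.MP_b30443_co.BlockSymmetric

set_option autoImplicit false

namespace Pool.Agent.R790.AP

open Finset
open Pool.Agent.Results.MP_b30443_co.BlockSymmetric (Balanced M lam le_M M_le_lam lam_nonneg)

section

variable {p : ℕ} [hp : Fact p.Prime]

/-- A dual certificate shows that a set carries no balanced weight. -/
theorem not_balanced (k d : ℕ) (S : Finset (Fin d → ZMod p))
    (V : ℕ → (Fin d → ZMod p) → ℕ) (K : ℕ) (hk : 1 ≤ k)
    (h1 : ∀ s ∈ S, ∑ i ∈ range k, V i s = K)
    (h2 : ∀ a y : Fin d → ZMod p, y ≠ 0 → (∀ i, i < k → a + i • y ∈ S) →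
      K < ∑ i ∈ range k, V i (a + i • y)) : ¬ Balanced k p d S := by
  classical
  rintro ⟨w, ⟨q0, hq0⟩, hsup, hbal⟩
  have key : ∀ (i : ℕ) (f : (Fin d → ZMod p) × (Fin d → ZMod p) → (Fin d → ZMod p)),
      ∑ q, w q * V i (f q) = ∑ s, V i s * ∑ q, if f q = s then w q else 0 := by
    intro i f
    simp_rw [Finset.mul_sum]
    rw [Finset.sum_comm]
    apply Finset.sum_congr rfl
    intro q _
    simp_rw [mul_ite, mul_zero]
    rw [Finset.sum_ite_eq, if_pos (Finset.mem_univ _), mul_comm]
  have e1 : ∑ q, w q * ∑ i ∈ range k, V i (q.1 + i • q.2) = ∑ q, w q * K := by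
    calc ∑ q, w q * ∑ i ∈ range k, V i (q.1 + i • q.2)
        = ∑ i ∈ range k, ∑ q, w q * V i (q.1 + i • q.2) := by
          simp_rw [Finset.mul_sum]
          rw [Finset.sum_comm]
      _ = ∑ i ∈ range k, ∑ q, w q * V i q.1 := by
          apply Finset.sum_congr rfl
          intro i hi
          rw [key i (fun q => q.1 + i • q.2), key i (fun q => q.1)]
          apply Finset.sum_congr rfl
          intro s _
          rw [hbal i (Finset.mem_range.1 hi) s]
      _ = ∑ q, w q * ∑ i ∈ range k, V i q.1 := by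
          simp_rw [Finset.mul_sum]
          rw [Finset.sum_comm]
      _ = ∑ q, w q * K := by
          apply Finset.sum_congr rfl
          intro q _
          by_cases hq : w q = 0
          · rw [hq, zero_mul, zero_mul]
          · have h3 := (hsup q hq).2 0 (by omega)
            rw [zero_smul, add_zero] at h3
            rw [h1 _ h3]
  have e2 : ∑ q, w q * K < ∑ q, w q * ∑ i ∈ range k, V i (q.1 + i • q.2) := by
    apply Finset.sum_lt_sum
    · intro q _
      by_cases hq : w q = 0
      · rw [hq, zero_mul, zero_mul]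
      · exact Nat.mul_le_mul_left _ (h2 q.1 q.2 (hsup q hq).1 (hsup q hq).2).le
    · exact ⟨q0, Finset.mem_univ _, Nat.mul_lt_mul_of_pos_left
        (h2 q0.1 q0.2 (hsup q0 hq0).1 (hsup q0 hq0).2) (Nat.pos_of_ne_zero hq0)⟩
  omega

end

/-- the number with the `p`-adic digits `x 0, x 1, …` -/
def enc (p : ℕ) : (d : ℕ) → (Fin d → ZMod p) → ℕ
  | 0, _ => 0
  | d + 1, x => (x 0).val + p * enc p d (Fin.tail x)

/-- the code of `a + i (b - a)` -/
def ptE (p i d : ℕ) : ℕ → ℕ → ℕ :=
  Nat.rec (motive := fun _ => ℕ → ℕ → ℕ) (fun _ _ => 0)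
    (fun _ ih a b => ((p + 1 - i) * (a % p) + i * (b % p)) % p + p * ih (a / p) (b / p)) d

lemma ptE_zero (p i a b : ℕ) : ptE p i 0 a b = 0 := rfl

lemma ptE_succ (p i d a b : ℕ) : ptE p i (d + 1) a b =
    ((p + 1 - i) * (a % p) + i * (b % p)) % p + p * ptE p i d (a / p) (b / p) := rfl

section

variable {p : ℕ} [hp : Fact p.Prime]

lemma enc_mod (d : ℕ) (x : Fin (d + 1) → ZMod p) : enc p (d + 1) x % p = (x 0).val := by
  rw [enc, Nat.add_mul_mod_self_left, Nat.mod_eq_of_lt (ZMod.val_lt _)]

lemma enc_div (d : ℕ) (x : Fin (d + 1) → ZMod p) :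
    enc p (d + 1) x / p = enc p d (Fin.tail x) := by
  rw [enc, Nat.add_mul_div_left _ _ hp.out.pos, Nat.div_eq_of_lt (ZMod.val_lt _), zero_add]

lemma enc_pt (i : ℕ) (hi : i ≤ p) : ∀ (d : ℕ) (x y : Fin d → ZMod p),
    enc p d (x + i • y) = ptE p i d (enc p d x) (enc p d (x + y))
  | 0, x, y => rfl
  | d + 1, x, y => by
    rw [ptE_succ, enc_mod, enc_mod, enc_div, enc_div]
    have h1 : Fin.tail (x + y) = Fin.tail x + Fin.tail y := rfl
    rw [h1, ← enc_pt i hi d]
    show ((x + i • y) 0).val + p * enc p d (Fin.tail (x + i • y)) = _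
    congr 1
    rw [Pi.add_apply, Pi.smul_apply, nsmul_eq_mul, Pi.add_apply]
    have h2 : x 0 + (i : ZMod p) * y 0 =
        (((p + 1 - i) * (x 0).val + i * (x 0 + y 0).val : ℕ) : ZMod p) := by
      rw [Nat.cast_add, Nat.cast_mul, Nat.cast_mul, Nat.cast_sub (by omega), Nat.cast_add,
        ZMod.natCast_zmod_val, ZMod.natCast_zmod_val, ZMod.natCast_self, Nat.cast_one]
      ring
    rw [h2, ZMod.val_natCast]

lemma enc_lt : ∀ (d : ℕ) (x : Fin d → ZMod p), enc p d x < p ^ d
  | 0, x => by simp [enc]
  | d + 1, x => by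
    have h1 := enc_lt d (Fin.tail x)
    have h2 := ZMod.val_lt (x 0)
    rw [enc, pow_succ]
    calc (x 0).val + p * enc p d (Fin.tail x) < p + p * enc p d (Fin.tail x) := by omega
      _ = p * (enc p d (Fin.tail x) + 1) := by ring
      _ ≤ p * p ^ d := Nat.mul_le_mul_left _ h1
      _ = p ^ d * p := mul_comm _ _

lemma enc_inj : ∀ (d : ℕ) (x y : Fin d → ZMod p), enc p d x = enc p d y → x = y
  | 0, x, y, _ => by
    funext i
    exact i.elim0
  | d + 1, x, y, h => by
    have h1 : (x 0).val = (y 0).val := by rw [← enc_mod, ← enc_mod, h]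
    have h2 : enc p d (Fin.tail x) = enc p d (Fin.tail y) := by rw [← enc_div, ← enc_div, h]
    have h3 := enc_inj d _ _ h2
    have h4 : x 0 = y 0 := ZMod.val_injective p h1
    rw [← Fin.cons_self_tail x, ← Fin.cons_self_tail y, h3, h4]

lemma enc_zero : ∀ (d : ℕ), enc p d 0 = 0
  | 0 => rfl
  | d + 1 => by
    have h : (Fin.tail (0 : Fin (d + 1) → ZMod p)) = 0 := rfl
    rw [enc, h, enc_zero d]
    simp

lemma enc_image (d : ℕ) : (univ : Finset (Fin d → ZMod p)).image (enc p d) = range (p ^ d) := by
  apply Finset.eq_of_subset_of_card_le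
  · intro n hn
    obtain ⟨x, _, rfl⟩ := Finset.mem_image.1 hn
    exact Finset.mem_range.2 (enc_lt d x)
  · rw [Finset.card_range, Finset.card_image_of_injective _ (fun x y h => enc_inj d x y h),
      Finset.card_univ, Fintype.card_fun, ZMod.card, Fintype.card_fin]

end

/-- the `a`-th entry (of `w` bits) of the table `T` -/
def lk (w T a : ℕ) : ℕ := (T >>> (w * a)) % 2 ^ w

/-- all numbers below `n` satisfy `f` -/
def allB (f : ℕ → Bool) : ℕ → Bool
  | 0 => true
  | n + 1 => f n && allB f n

lemma allB_spec (f : ℕ → Bool) : ∀ n : ℕ, allB f n = true → ∀ m < n, f m = true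
  | 0, _, m, hm => absurd hm (Nat.not_lt_zero m)
  | n + 1, h, m, hm => by
    rw [allB, Bool.and_eq_true] at h
    rcases Nat.lt_succ_iff_lt_or_eq.1 hm with h1 | h1
    · exact allB_spec f n h.2 m h1
    · rw [h1]
      exact h.1

/-- the number of `m < n` with `f m` -/
def cntB (f : ℕ → Bool) : ℕ → ℕ
  | 0 => 0
  | n + 1 => bif f n then cntB f n + 1 else cntB f n

lemma cntB_spec (f : ℕ → Bool) : ∀ n : ℕ,
    cntB f n = ((range n).filter (fun m => f m = true)).card
  | 0 => by simp [cntB]
  | n + 1 => by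
    rw [cntB, Finset.range_add_one, Finset.filter_insert, cntB_spec f n]
    cases h : f n
    · simp
    · simp [h]

/-- the walk along the progression with the first two terms `a` and `b`, from the `i`-th term on -/
def walk (p d w K a b : ℕ) (L : List ℕ) : ℕ → ℕ → Bool :=
  List.rec (motive := fun _ => ℕ → ℕ → Bool) (fun _ acc => Nat.blt K acc)
    (fun T _ ih i acc => Nat.rec (motive := fun _ => Bool) true
      (fun v _ => ih (i + 1) (acc + (v + 1))) (lk w T (ptE p i d a b))) L

lemma walk_nil (p d w K a b i acc : ℕ) : walk p d w K a b [] i acc = Nat.blt K acc := rfl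

lemma walk_cons (p d w K a b i acc T : ℕ) (L : List ℕ) : walk p d w K a b (T :: L) i acc =
    Nat.rec (motive := fun _ => Bool) true
      (fun v _ => walk p d w K a b L (i + 1) (acc + (v + 1))) (lk w T (ptE p i d a b)) := rfl

lemma walk_spec (p d w K a b : ℕ) : ∀ (L : List ℕ) (i acc : ℕ),
    walk p d w K a b L i acc = true →
    (∀ j, j < L.length → lk w (L.getD j 0) (ptE p (i + j) d a b) ≠ 0) →
    K < acc + ∑ j ∈ range L.length, lk w (L.getD j 0) (ptE p (i + j) d a b)
  | [], i, acc, h, _ => by
    simpa [walk_nil] using h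
  | T :: L, i, acc, h, h0 => by
    have h1 := h0 0 (by simp)
    rw [add_zero, List.getD_cons_zero] at h1
    rw [walk_cons] at h
    rw [List.length_cons, Finset.sum_range_succ']
    simp only [List.getD_cons_zero, List.getD_cons_succ, add_zero]
    cases h2 : lk w T (ptE p i d a b) with
    | zero => exact absurd h2 h1
    | succ v =>
      rw [h2] at h
      have h3 := walk_spec p d w K a b L (i + 1) (acc + (v + 1)) h (by
        intro j hj
        have h4 := h0 (j + 1) (by simpa using hj)
        rw [List.getD_cons_succ] at h4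
        rwa [show i + 1 + j = i + (j + 1) by omega])
      have h5 : ∑ j ∈ range L.length, lk w (L.getD j 0) (ptE p (i + 1 + j) d a b) =
          ∑ j ∈ range L.length, lk w (L.getD j 0) (ptE p (i + (j + 1)) d a b) := by
        apply Finset.sum_congr rfl
        intro j _
        rw [show i + 1 + j = i + (j + 1) by omega]
      omega

/-- membership in the set given by the tables -/
def memb (w T a : ℕ) : Bool := !(Nat.beq (lk w T a) 0)

/-- the entries of an element of the set are positive and have sum `K` -/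
def rowOk (w K : ℕ) (L : List ℕ) (a : ℕ) : Bool :=
  (L.all fun T => !(Nat.beq (lk w T a) 0)) && Nat.beq ((L.map fun T => lk w T a).sum) K

/-- the full check for the tables `T₀, T₁` and the further tables `L` -/
def check (p d w K T₀ T₁ : ℕ) (L : List ℕ) : Bool :=
  allB (fun a => bif memb w T₀ a then
    rowOk w K (T₀ :: T₁ :: L) a && allB (fun b => bif (memb w T₀ b && !(Nat.beq a b)) then
      walk p d w K a b L 2 (lk w T₀ a + lk w T₁ b) else true) (p ^ d) else true) (p ^ d)

/-- A successful check gives a lower bound for the growth rate. -/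
theorem M_ge (k p d w K N : ℕ) [hp : Fact p.Prime] (T₀ T₁ : ℕ) (L : List ℕ) (hk : 2 ≤ k)
    (hkp : k ≤ p) (hL : L.length + 2 = k)
    (hc : check p d w K T₀ T₁ L = true) (hN : cntB (memb w T₀) (p ^ d) = N) : N ≤ M k p d := by
  classical
  set L₀ : List ℕ := T₀ :: T₁ :: L with hL₀
  have hL0 : L₀.length = k := by rw [hL₀, List.length_cons, List.length_cons, hL]
  set S : Finset (Fin d → ZMod p) := univ.filter (fun x => memb w T₀ (enc p d x) = true) with hS
  set V : ℕ → (Fin d → ZMod p) → ℕ := fun i x => lk w (L₀.getD i 0) (enc p d x) with hV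
  have hcard : S.card = N := by
    rw [← hN, cntB_spec, ← enc_image (p := p) d, Finset.filter_image,
      Finset.card_image_of_injective _ (fun x y h => enc_inj d x y h)]
  have hmem : ∀ x ∈ S, rowOk w K L₀ (enc p d x) = true ∧ ∀ m < p ^ d,
      (bif (memb w T₀ m && !(Nat.beq (enc p d x) m)) then
        walk p d w K (enc p d x) m L 2 (lk w T₀ (enc p d x) + lk w T₁ m) else true) = true := by
    intro x hx
    have h1 := allB_spec _ _ hc (enc p d x) (enc_lt d x)
    have h2 : memb w T₀ (enc p d x) = true := (Finset.mem_filter.1 hx).2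
    simp only [h2, cond_true, Bool.and_eq_true] at h1
    exact ⟨h1.1, allB_spec _ _ h1.2⟩
  have hpos : ∀ x ∈ S, ∀ i, i < k → V i x ≠ 0 := by
    intro x hx i hi
    have h1 := (hmem x hx).1
    rw [rowOk, Bool.and_eq_true, List.all_eq_true] at h1
    have h2 := h1.1 (L₀.getD i 0) (by
      rw [List.getD_eq_getElem _ _ (by rw [hL0]; exact hi)]
      exact List.getElem_mem _)
    intro h3
    have h4 : lk w (L₀.getD i 0) (enc p d x) = 0 := h3
    rw [h4] at h2
    simp at h2
  have hsum : ∀ x ∈ S, ∑ i ∈ range k, V i x = K := by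
    intro x hx
    have h1 := (hmem x hx).1
    rw [rowOk, Bool.and_eq_true] at h1
    have h2 := Nat.eq_of_beq_eq_true h1.2
    rw [← h2, ← hL0]
    have h3 : ∀ L' : List ℕ, ∑ i ∈ range L'.length, lk w (L'.getD i 0) (enc p d x) =
        (L'.map fun T => lk w T (enc p d x)).sum := by
      intro L'
      induction L' with
      | nil => simp
      | cons T L' ih =>
        rw [List.length_cons, Finset.sum_range_succ', List.map_cons, List.sum_cons, ← ih]
        simp only [List.getD_cons_succ, List.getD_cons_zero]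
        rw [add_comm]
    exact h3 L₀
  have hun : ¬ Balanced k p d S := by
    apply not_balanced k d S V K (by omega) hsum
    intro a y hy hAP
    have ha : a ∈ S := by
      have := hAP 0 (by omega)
      rwa [zero_smul, add_zero] at this
    have hb : a + y ∈ S := by
      have := hAP 1 (by omega)
      rwa [one_smul] at this
    have h1 := (hmem a ha).2 (enc p d (a + y)) (enc_lt d (a + y))
    have hb2 : memb w T₀ (enc p d (a + y)) = true := (Finset.mem_filter.1 hb).2
    have hy0 : Nat.beq (enc p d a) (enc p d (a + y)) = false := by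
      rw [← Bool.not_eq_true]
      intro h
      apply hy
      have h5 := enc_inj d _ _ (Nat.eq_of_beq_eq_true h)
      have h6 : a + 0 = a + y := by rw [add_zero]; exact h5
      exact (add_left_cancel h6).symm
    rw [hb2, hy0] at h1
    simp only [Bool.not_false, Bool.and_self, cond_true] at h1
    have h2 := walk_spec p d w K (enc p d a) (enc p d (a + y)) L 2 _ h1 (by
      intro j hj
      rw [← enc_pt (2 + j) (by omega)]
      have h7 := hpos _ (hAP (2 + j) (by omega)) (2 + j) (by omega)
      have h8 : L₀.getD (2 + j) 0 = L.getD j 0 := by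
        rw [hL₀, show 2 + j = j + 1 + 1 by omega, List.getD_cons_succ, List.getD_cons_succ]
      rw [hV] at h7
      simp only [h8] at h7
      exact h7)
    refine lt_of_lt_of_le h2 (le_of_eq ?_)
    obtain ⟨m, rfl⟩ : ∃ m, k = m + 2 := ⟨k - 2, by omega⟩
    have hLm : L.length = m := by omega
    rw [Finset.sum_range_succ', Finset.sum_range_succ', hLm]
    have e0 : V 0 (a + 0 • y) = lk w T₀ (enc p d a) := by
      rw [zero_smul, add_zero]
      rfl
    have e1 : V (0 + 1) (a + (0 + 1) • y) = lk w T₁ (enc p d (a + y)) := by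
      rw [zero_add, one_smul]
      rfl
    rw [e0, e1, add_assoc (∑ j ∈ range m, _), add_comm (lk w T₁ _), add_comm]
    congr 1
    apply Finset.sum_congr rfl
    intro j hj
    have hj' := Finset.mem_range.1 hj
    rw [← enc_pt (2 + j) (by omega)]
    have h8 : L₀.getD (j + 1 + 1) 0 = L.getD j 0 := by
      rw [hL₀, List.getD_cons_succ, List.getD_cons_succ]
    show _ = lk w (L₀.getD (j + 1 + 1) 0) (enc p d (a + (j + 1 + 1) • y))
    rw [h8, show 2 + j = j + 1 + 1 by omega]
  rw [← hcard]
  exact le_M hun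

/-- the bound for `λ` -/
theorem lam_ge (k p d w K N : ℕ) [hp : Fact p.Prime] (T₀ T₁ : ℕ) (L : List ℕ) (hk : 2 ≤ k)
    (hkp : k ≤ p) (hd : 1 ≤ d) (hL : L.length + 2 = k) (hc : check p d w K T₀ T₁ L = true)
    (hN : cntB (memb w T₀) (p ^ d) = N) : (N : ℝ) ≤ lam k p ^ d := by
  have h1 := M_ge k p d w K N T₀ T₁ L hk hkp hL hc hN
  have h2 := M_le_lam (p := p) k d (by omega) hd
  exact le_trans (by exact_mod_cast h1) h2

end Pool.Agent.R790.AP
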