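import Pool.Agent.R790.AP.Cert

/-!
# Tables of a set without balanced weights
-/

set_option autoImplicit false
set_option maxRecDepth 100000

namespace Pool.Agent.R790.AP

open Pool.Agent.Results.MP_b30443_co.BlockSymmetric (lam)

/-- table 0 for `k = 4`, `p = 7`, `d = 3` -/
def a470 : ℕ :=
  0x5dd0120004801c001758001a68770074769a0000170001c045701101d6000005c00170000170004c00130120005980000004800004800000005800130136404c00170000180006000000190130004c04400000000165916406505960000000004404c001301900000000000000a01760000000000000059a00000001901900000000058000000064000065700001900064000051c0100003c000001464001a68070074065a00001400000041a01001d50000064001900001600a00000000e00058024065838000039860024058000e00000000901500000000000004001c01300050040000064001864f6c07106590000000003c04d901301b00000064001900c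

/-- table 1 for `k = 4`, `p = 7`, `d = 3` -/
def a471 : ℕ :=
  0x4cd0180006008c00135000104233803634100000130008c065301900d4800004c00130000130005c00170180005120000006000006000000005000170174405c00130000120004800000110170005c064000000001451944045a5140000000006405c001701100000000000002001348000000000000051000000001101100000000050000000044000045300001100044000058e01a0006c000001644001040038034045000001600000069001a00d58000044001100001402000000001c00050084045270000071248084050001c000000021015000000000000a4000e01700058068000044001245b3c039a4510000000006c05d101700f00000044001101e

theorem a47_check : check 7 3 6 84 a470 a471 [a471, a470] = true := by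
  decide +kernel

theorem a47_count : cntB (memb 6 a470) (7 ^ 3) = 127 := by
  decide +kernel

theorem a47_lam : ((127 : ℕ) : ℝ) ≤ lam 4 7 ^ 3 := by
  have : Fact (Nat.Prime 7) := ⟨by norm_num⟩
  exact lam_ge 4 7 3 6 84 127 a470 a471 [a471, a470] (by norm_num) (by norm_num)
    (by norm_num) rfl a47_check a47_count

end Pool.Agent.R790.AP

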