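import Pool.Agent.R790.AP.Cert

/-!
# Tables of a set without balanced weights
-/

set_option autoImplicit false
set_option maxRecDepth 100000

namespace Pool.Agent.R790.AP

open Pool.Agent.Results.MP_b30443_co.BlockSymmetric (lam)

/-- table 0 for `k = 5`, `p = 7`, `d = 3` -/
def a570 : ℕ :=
  0xf0190185c03c001000a01a01201980000f00000000001a2ce40928000000f61001c2960106003c074060034034000c3003800104c030058d8104523970003dc4c000000038001a00000000f41000000001a0003c000060065f64b00901931900000001900031e34001a80e01b00700c2cc00000e0003c03c00006c000000e00000000000030078001125a68000000c61a3c06c000c01900001100054030000001f00068001c3db5800005d90003d900000000001c00000e2c000000d31900041f00a0005c05dc0106513403003cc40e5c000001268000058039001c3400003d12c00106400107004172c034068e79364001c38e40b00036068000038900001f000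

/-- table 1 for `k = 5`, `p = 7`, `d = 3` -/
def a571 : ℕ :=
  0x1900f00948064001501900b00d00f1c001900000000000b69855864000001425500d6510154c06402402407005c001b6c06000154c06c04571df6d260d00050d4c000000060000b00000001955500000000b0007800002403cb3df01d00f6cf00000000f0005855c000b1d800701b0166960000180006406400001c000001800000000000058028001674b40000001b38b5001c002000f0000160004006c00000010002c000d50744000048f00078f00000000000d0000186800000176cf00054b01400034048d0153d65c058052055834000001c2c00004404d500d5c00006565400153c00153405526807004181533c000d6185550005c72c000061d00000b000

/-- table 2 for `k = 5`, `p = 7`, `d = 3` -/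
def a572 : ℕ :=
  0xf00f01d3403c001501901502100f44000f00000000001555355d64000001975500d6510152403c04c07403405c00114404c00154c04404574411d74d700064d4c00000004c001500000000f5550000000150001400007403cb3cb01300f44f00000000f0006d95c001545301b01b01b55b0000130003c03c00006c00000130000000000006c03c00114d52c00000114d56406c000700f00001100054044000001f00054000d65b44000034f00014f00000000000d00001354000001744f00054b0230005c034d0153d15c06c06475535c000000354000044075500d5c00003d17c00153c001534054d5403402d36533c000d4d355f0005d15400004d300000b000

theorem a57_check : check 7 3 6 95 a570 a571 [a572, a571, a570] = true := by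
  decide +kernel

theorem a57_count : cntB (memb 6 a570) (7 ^ 3) = 163 := by
  decide +kernel

theorem a57_lam : ((163 : ℕ) : ℝ) ≤ lam 5 7 ^ 3 := by
  have : Fact (Nat.Prime 7) := ⟨by norm_num⟩
  exact lam_ge 5 7 3 6 95 163 a570 a571 [a572, a571, a570] (by norm_num) (by norm_num)
    (by norm_num) rfl a57_check a57_count

end Pool.Agent.R790.AP

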