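import Pool.Agent.R790.AP.Cert

/-!
# Tables of a set without balanced weights
-/

set_option autoImplicit false
set_option maxRecDepth 100000

namespace Pool.Agent.R790.AP

open Pool.Agent.Results.MP_b30443_co.BlockSymmetric (lam)

/-- table 0 for `k = 6`, `p = 7`, `d = 3` -/
def a670 : ℕ :=
  0x18554b550f55c01829b78f9f1ea3c2557b2295ec9c186c84775b202bc2bacf9f5521d5c27dae900ecd49c3

theorem a67_check : check 7 3 1 6 a670 a670 [a670, a670, a670, a670] = true := by
  decide +kernel

theorem a67_count : cntB (memb 1 a670) (7 ^ 3) = 168 := by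
  decide +kernel

theorem a67_lam : ((168 : ℕ) : ℝ) ≤ lam 6 7 ^ 3 := by
  have : Fact (Nat.Prime 7) := ⟨by norm_num⟩
  exact lam_ge 6 7 3 1 6 168 a670 a670 [a670, a670, a670, a670] (by norm_num) (by norm_num)
    (by norm_num) rfl a67_check a67_count

end Pool.Agent.R790.AP

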