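import Pool.Agent.R790.AP.Cert

/-!
# Tables of a set without balanced weights
-/

set_option autoImplicit false
set_option maxRecDepth 100000

namespace Pool.Agent.R790.AP

open Pool.Agent.Results.MP_b30443_co.BlockSymmetric (lam)

/-- table 0 for `k = 8`, `p = 11`, `d = 2` -/
def a8110 : ℕ :=
  0x126bdef5c5809800c84a2ca81e0002aa81575002325b18a05000a1e4f0412ea01b36a900035e000000639406016b6364c7b9e062a40681892800f03c0c6b14064e00042118b6087b81203a69

/-- table 1 for `k = 8`, `p = 11`, `d = 2` -/
def a8111 : ℕ :=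
  0xa6ce733d6005801463ab0882e00012642569001aa9d18e0300081d4f0512aa02ab49a00055600000043940800eb445d09c960429c0a81094801704c0c4c140a4e800318d8e68c9981602971

/-- table 2 for `k = 8`, `p = 11`, `d = 2` -/
def a8112 : ℕ :=
  0xa8ad6bb86805800862834280600013a666690012a7a2160200046d4701336201abaeb00035e000000c3a40a02f7c25501b9e0c594068299e800301c14ad24060c800318d284945d80203975

/-- table 3 for `k = 8`, `p = 11`, `d = 2` -/
def a8113 : ℕ :=
  0x126ad6b7c5007801083a28681e00022ea45f1002325c20a0400063e53041aa6012f6b900025e00000063a40401eb645cc9a9e0639c04820d6800f03c0c6a24063e000420d8c6105b80e049e9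

theorem a811_check : check 11 2 5 112 a8110 a8111 [a8112, a8113, a8113, a8112, a8111, a8110] = true := by
  decide +kernel

theorem a811_count : cntB (memb 5 a8110) (11 ^ 2) = 86 := by
  decide +kernel

theorem a811_lam : ((86 : ℕ) : ℝ) ≤ lam 8 11 ^ 2 := by
  have : Fact (Nat.Prime 11) := ⟨by norm_num⟩
  exact lam_ge 8 11 2 5 112 86 a8110 a8111 [a8112, a8113, a8113, a8112, a8111, a8110] (by norm_num) (by norm_num)
    (by norm_num) rfl a811_check a811_count

end Pool.Agent.R790.AP

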