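import Pool.Agent.R790.AP.Cert

/-!
# Tables of a set without balanced weights
-/

set_option autoImplicit false
set_option maxRecDepth 100000

namespace Pool.Agent.R790.AP

open Pool.Agent.Results.MP_b30443_co.BlockSymmetric (lam)

/-- table 0 for `k = 4`, `p = 13`, `d = 2` -/
def a4130 : ℕ :=
  0x4d0bc0c500a0a80000008a061000633400010004080090400066c000000c66300000990000090b06900960b007a00000000b714da0000009e40009a0990a90004000b00a00049b00a0000b00b0000000000000b

/-- table 1 for `k = 4`, `p = 13`, `d = 2` -/
def a4131 : ℕ :=
  0xc305404b006068000000860af000addc000f000c080070c000aa40000004aad0000077000007050a7007a0500960000000059fc3600000072c00076077067000c0005006000c750060000500500000000000005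

theorem a413_check : check 13 2 4 32 a4130 a4131 [a4131, a4130] = true := by
  decide +kernel

theorem a413_count : cntB (memb 4 a4130) (13 ^ 2) = 65 := by
  decide +kernel

theorem a413_lam : ((65 : ℕ) : ℝ) ≤ lam 4 13 ^ 2 := by
  have : Fact (Nat.Prime 13) := ⟨by norm_num⟩
  exact lam_ge 4 13 2 4 32 65 a4130 a4131 [a4131, a4130] (by norm_num) (by norm_num)
    (by norm_num) rfl a413_check a413_count

end Pool.Agent.R790.AP

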