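import Pool.Agent.R790.AP.Cert

/-!
# Tables of a set without balanced weights
-/

set_option autoImplicit false
set_option maxRecDepth 100000

namespace Pool.Agent.R790.AP

open Pool.Agent.Results.MP_b30443_co.BlockSymmetric (lam)

/-- table 0 for `k = 4`, `p = 5`, `d = 4` -/
def a450 : ℕ :=
  0x12426008241ae40648a00c090092b5c00010c403209061a02200410908006ca001493490e06044085614082004420cac83104040908e4c086024010899400d40189214d3912a0247090a040000110

theorem a45_check : check 5 4 1 4 a450 a450 [a450, a450] = true := by
  decide +kernel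

theorem a45_count : cntB (memb 1 a450) (5 ^ 4) = 158 := by
  decide +kernel

theorem a45_lam : ((158 : ℕ) : ℝ) ≤ lam 4 5 ^ 4 := by
  have : Fact (Nat.Prime 5) := ⟨by norm_num⟩
  exact lam_ge 4 5 4 1 4 158 a450 a450 [a450, a450] (by norm_num) (by norm_num)
    (by norm_num) rfl a45_check a45_count

end Pool.Agent.R790.AP

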