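import Pool.Agent.Results.MP_b30443_co.BlockSymmetric

/-!
# Long progressions: the complement of a simplex carries no balanced weight
-/

set_option autoImplicit false

namespace Pool.Agent.R790.AP.Long

open Finset
open Pool.Agent.Results.MP_b30443_co.BlockSymmetric (Balanced M lam le_M M_le_lam lam_nonneg)

variable {p : ℕ} [hp : Fact p.Prime]

/-- barycentric coordinates -/
def bc (d : ℕ) (x : Fin d → ZMod p) : Fin (d + 1) → ZMod p := Fin.cons (1 - ∑ i, x i) x

/-- the linear part of the barycentric coordinates -/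
def lc (d : ℕ) (y : Fin d → ZMod p) : Fin (d + 1) → ZMod p := Fin.cons (-∑ i, y i) y


lemma sum_bc (d : ℕ) (x : Fin d → ZMod p) : ∑ i, bc d x i = 1 := by
  rw [Fin.sum_univ_succ]
  simp [bc]


lemma sum_lc (d : ℕ) (y : Fin d → ZMod p) : ∑ i, lc d y i = 0 := by
  rw [Fin.sum_univ_succ]
  simp [lc]


lemma bc_add (d : ℕ) (x y : Fin d → ZMod p) (m : ℕ) (i : Fin (d + 1)) :
    bc d (x + m • y) i = bc d x i + m * lc d y i := by
  have e : ∀ l, (x + m • y) l = x l + m * y l := fun l => by
    rw [Pi.add_apply, Pi.smul_apply, nsmul_eq_mul]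
  refine Fin.cases ?_ (fun i => ?_) i
  · simp only [bc, lc, Fin.cons_zero, e, Finset.sum_add_distrib, ← Finset.mul_sum]
    ring
  · simp only [bc, lc, Fin.cons_succ, e]


lemma lc_ne (d : ℕ) (y : Fin d → ZMod p) (hy : y ≠ 0) : ∃ i, lc d y i ≠ 0 := by
  obtain ⟨i, hi⟩ := Function.ne_iff.1 hy
  exact ⟨i.succ, by simpa [lc] using hi⟩


lemma bc_inj (d : ℕ) (x x' : Fin d → ZMod p) (h : bc d x = bc d x') : x = x' := by
  funext i
  have := congrFun h i.succ
  simpa [bc] using this

/-- the complement of the simplex with few points removed -/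
noncomputable def Good (p d : ℕ) [Fact p.Prime] : Finset (Fin d → ZMod p) := by
  classical
  exact univ.filter (fun x => (∀ i, bc d x i ≠ 0) ∧ ∀ I : Finset (Fin (d + 1)), ∀ i ∈ I,
    (∀ l ∈ I, i ≤ l) → ∑ l ∈ I, bc d x l = 0 → bc d x i ≠ 1)

lemma mem_good (d : ℕ) (x : Fin d → ZMod p) : x ∈ Good p d ↔ (∀ i, bc d x i ≠ 0) ∧
    ∀ I : Finset (Fin (d + 1)), ∀ i ∈ I,
    (∀ l ∈ I, i ≤ l) → ∑ l ∈ I, bc d x l = 0 → bc d x i ≠ 1 := by
  classical
  rw [Good, Finset.mem_filter]
  simp

/-- a value which is avoided by a progression is taken in the short gap -/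
lemma gap {j k q : ℕ} (hkj : k + j = p) (α β η : ZMod p) (hη : η ≠ 0)
    (h : ∀ i : ℕ, i < k → α + ((i : ZMod p) - q) * η ≠ β) :
    ∃ e : ℕ, e < j ∧ α - β = ((q + 1 + e : ℕ) : ZMod p) * η := by
  set z : ZMod p := (β - α) / η + q with hz
  have h1 : ((z.val : ℕ) : ZMod p) = z := ZMod.natCast_zmod_val z
  have h2 : α + (((z.val : ℕ) : ZMod p) - q) * η = β := by
    rw [h1, hz]
    field_simp
    ring
  have h3 : ¬ z.val < k := fun h4 => h _ h4 h2
  have h4 : z.val < p := ZMod.val_lt z
  refine ⟨p - 1 - z.val, by omega, ?_⟩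
  have h5 : q + 1 + (p - 1 - z.val) + z.val = q + p := by omega
  have h6 : ((q + 1 + (p - 1 - z.val) : ℕ) : ZMod p) = q - ((z.val : ℕ) : ZMod p) := by
    have h7 := congrArg (Nat.cast : ℕ → ZMod p) h5
    rw [Nat.cast_add _ z.val, Nat.cast_add q p, ZMod.natCast_self, add_zero] at h7
    rw [← h7]
    ring
  rw [h6, ← h2]
  ring

open Polynomial in
/-- the polynomial of a pattern -/
noncomputable def pat (j : ℕ) (A : Fin j → ZMod p) : (ZMod p)[X] :=
  ∑ e, C (A e) * ∏ e' ∈ univ.erase e, (X + C (((e' : ℕ) : ZMod p)))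

open Polynomial in
lemma pat_deg (j : ℕ) (A : Fin j → ZMod p) : (pat j A).natDegree ≤ j - 1 := by
  rw [pat]
  apply Polynomial.natDegree_sum_le_of_forall_le
  intro e _
  refine (Polynomial.natDegree_C_mul_le _ _).trans ?_
  refine (Polynomial.natDegree_prod_le _ _).trans ?_
  have h1 : ∀ e' ∈ univ.erase e, (X + C (((e' : Fin j) : ℕ) : ZMod p)).natDegree = 1 := by
    intro e' _
    exact Polynomial.natDegree_X_add_C _
  rw [Finset.sum_congr rfl h1]
  simp

open Polynomial in
lemma pat_ne (j : ℕ) (hj : j < p) (A : Fin j → ZMod p) (hA : ∃ e, A e ≠ 0) : pat j A ≠ 0 := by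
  obtain ⟨e, he⟩ := hA
  intro h
  have h1 : (pat j A).eval (-((e : ℕ) : ZMod p)) = 0 := by rw [h, eval_zero]
  rw [pat, eval_finsetSum, Finset.sum_eq_single e] at h1
  · rw [eval_mul, eval_C, eval_prod] at h1
    rcases mul_eq_zero.1 h1 with h2 | h2
    · exact he h2
    · rw [Finset.prod_eq_zero_iff] at h2
      obtain ⟨e', he', h3⟩ := h2
      rw [eval_add, eval_X, eval_C] at h3
      have h4 : ((e' : ℕ) : ZMod p) = ((e : ℕ) : ZMod p) := by
        linear_combination h3
      have h5 := (ZMod.natCast_eq_natCast_iff' _ _ _).1 h4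
      rw [Nat.mod_eq_of_lt (by omega), Nat.mod_eq_of_lt (by omega)] at h5
      exact Finset.ne_of_mem_erase he' (Fin.ext h5)
  · intro e' _ hne
    rw [eval_mul, eval_prod]
    apply mul_eq_zero_of_right
    apply Finset.prod_eq_zero (i := e)
    · exact Finset.mem_erase.2 ⟨hne.symm, Finset.mem_univ _⟩
    · simp
  · intro h2
    exact absurd (Finset.mem_univ _) h2

open Polynomial in
lemma pat_root (j : ℕ) (A : Fin j → ZMod p) (σ : ZMod p)
    (hσ : ∀ e : Fin j, σ + ((e : ℕ) : ZMod p) ≠ 0)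
    (h : ∑ e : Fin j, A e / (σ + ((e : ℕ) : ZMod p)) = 0) : (pat j A).eval σ = 0 := by
  have h1 : (pat j A).eval σ = (∏ e : Fin j, (σ + ((e : ℕ) : ZMod p))) *
      ∑ e : Fin j, A e / (σ + ((e : ℕ) : ZMod p)) := by
    rw [pat, eval_finsetSum, Finset.mul_sum]
    apply Finset.sum_congr rfl
    intro e _
    rw [eval_mul, eval_C, eval_prod, ← Finset.mul_prod_erase univ _ (Finset.mem_univ e)]
    simp only [eval_add, eval_X, eval_C]
    have := hσ e
    field_simp
  rw [h1, h, mul_zero]

/-- the covered positions -/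
lemma covered (d j k : ℕ) (hkj : k + j = p) (a y : Fin d → ZMod p) (hy : y ≠ 0) (q : ℕ)
    (hq : q < k) (h : ∀ i : ℕ, i < k → a + i • y ∈ Good p d) (v : Fin d → ZMod p)
    (hv : a + q • y = v) :
    (∃ g : Fin (d + 1) → Option (Fin j),
      (∃ e, ∑ i ∈ univ.filter (fun i => g i = some e), bc d v i ≠ 0) ∧
      ∑ e : Fin j, (∑ i ∈ univ.filter (fun i => g i = some e), bc d v i) /
        (((q + 1 : ℕ) : ZMod p) + ((e : ℕ) : ZMod p)) = 0) ∨
    ∃ (i : Fin (d + 1)) (e e' : Fin j), ((q + 1 : ℕ) : ZMod p) =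
      -((e : ℕ) : ZMod p) + bc d v i * (((e : ℕ) : ZMod p) - ((e' : ℕ) : ZMod p)) := by
  classical
  -- coordinates along the progression
  have hco : ∀ (i : ℕ) (l : Fin (d + 1)), bc d (a + i • y) l =
      bc d v l + ((i : ZMod p) - q) * lc d y l := by
    intro i l
    rw [← hv, bc_add, bc_add]
    ring
  have hpos : ∀ e : Fin j, ((q + 1 : ℕ) : ZMod p) + ((e : ℕ) : ZMod p) ≠ 0 := by
    intro e
    have h1 : ((q + 1 : ℕ) : ZMod p) + ((e : ℕ) : ZMod p) = ((q + 1 + e : ℕ) : ZMod p) := by
      push_cast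
      ring
    rw [h1]
    intro h2
    rw [ZMod.natCast_eq_zero_iff] at h2
    have h3 := Nat.le_of_dvd (by omega) h2
    have := e.2
    omega
  -- the pattern
  have hpat : ∀ l : Fin (d + 1), lc d y l ≠ 0 → ∃ e : Fin j,
      bc d v l = (((q + 1 : ℕ) : ZMod p) + ((e : ℕ) : ZMod p)) * lc d y l := by
    intro l hl
    obtain ⟨e, he, h1⟩ := gap hkj (bc d v l) 0 (lc d y l) hl (by
      intro i hi
      rw [← hco]
      exact ((mem_good d _).1 (h i hi)).1 l)
    refine ⟨⟨e, he⟩, ?_⟩
    rw [sub_zero] at h1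
    rw [h1]
    push_cast
    ring
  choose f hf using hpat
  set g : Fin (d + 1) → Option (Fin j) := fun l => if hl : lc d y l ≠ 0 then some (f l hl)
    else none with hg
  have hg1 : ∀ (l : Fin (d + 1)) (e : Fin j), g l = some e → lc d y l ≠ 0 ∧
      bc d v l = (((q + 1 : ℕ) : ZMod p) + ((e : ℕ) : ZMod p)) * lc d y l := by
    intro l e hle
    by_cases hl : lc d y l ≠ 0
    · rw [hg] at hle
      simp only [dif_pos hl, Option.some.injEq] at hle
      rw [← hle]
      exact ⟨hl, hf l hl⟩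
    · rw [hg] at hle
      simp only [dif_neg hl] at hle
      exact absurd hle (by simp)
  have hg2 : ∀ l : Fin (d + 1), g l = none → lc d y l = 0 := by
    intro l hle
    by_contra hl
    rw [hg] at hle
    simp only [dif_pos (show lc d y l ≠ 0 from hl)] at hle
    exact absurd hle (by simp)
  have hdiv : ∀ e : Fin j, (∑ i ∈ univ.filter (fun i => g i = some e), bc d v i) /
        (((q + 1 : ℕ) : ZMod p) + ((e : ℕ) : ZMod p)) =
        ∑ i ∈ univ.filter (fun i => g i = some e), lc d y i := by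
    intro e
    rw [div_eq_iff (hpos e), Finset.sum_mul]
    apply Finset.sum_congr rfl
    intro i hi
    rw [(hg1 i e (Finset.mem_filter.1 hi).2).2]
    ring
  by_cases hA : ∃ e, ∑ i ∈ univ.filter (fun i => g i = some e), bc d v i ≠ 0
  · left
    refine ⟨g, hA, ?_⟩
    rw [Finset.sum_congr rfl (fun e _ => hdiv e)]
    have h1 : ∑ i, lc d y i = ∑ o : Option (Fin j),
        ∑ i ∈ univ.filter (fun i => g i = o), lc d y i :=
      (Finset.sum_fiberwise univ g (fun i => lc d y i)).symm
    rw [Fintype.sum_option, sum_lc] at h1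
    have h2 : ∑ i ∈ univ.filter (fun i => g i = none), lc d y i = 0 := by
      apply Finset.sum_eq_zero
      intro i hi
      exact hg2 i (Finset.mem_filter.1 hi).2
    rw [h2, zero_add] at h1
    exact h1.symm
  · right
    push Not at hA
    obtain ⟨l, hl⟩ := lc_ne d y hy
    obtain ⟨e, he⟩ : ∃ e, g l = some e := by
      rcases hgl : g l with _ | e
      · exact absurd (hg2 l hgl) hl
      · exact ⟨e, rfl⟩
    set I : Finset (Fin (d + 1)) := univ.filter (fun i => g i = some e) with hI
    have hIne : I.Nonempty := ⟨l, Finset.mem_filter.2 ⟨Finset.mem_univ _, he⟩⟩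
    set i := I.min' hIne with hi
    have hiI : i ∈ I := I.min'_mem hIne
    have hgi : g i = some e := (Finset.mem_filter.1 hiI).2
    have hi1 := hg1 i e hgi
    obtain ⟨e', he', h1⟩ := gap hkj (bc d v i) 1 (lc d y i) hi1.1 (by
      intro m hm
      rw [← hco]
      apply ((mem_good d _).1 (h m hm)).2 I i hiI (fun l hl => I.min'_le l hl)
      rw [Finset.sum_congr rfl (fun l _ => hco m l), Finset.sum_add_distrib, hA e, zero_add,
        ← Finset.mul_sum, ← hdiv e, hA e, zero_div, mul_zero])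
    refine ⟨i, e, ⟨e', he'⟩, ?_⟩
    have h2 := hi1.2
    have h3 : bc d v i - 1 = (((q + 1 : ℕ) : ZMod p) + ((e' : ℕ) : ZMod p)) * lc d y i := by
      rw [h1]
      push_cast
      ring
    have h4 : lc d y i ≠ 0 := hi1.1
    apply mul_right_cancel₀ h4
    set σ : ZMod p := ((q + 1 : ℕ) : ZMod p)
    show σ * lc d y i = (-((e : ℕ) : ZMod p) + bc d v i * (((e : ℕ) : ZMod p) - ((e' : ℕ) : ZMod p))) * lc d y i
    have h5 : (((e : ℕ) : ZMod p) - ((e' : ℕ) : ZMod p)) * lc d y i = 1 := by
      linear_combination h3 - h2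
    linear_combination -h2 - bc d v i * h5

/-- the complement of the simplex carries no balanced weight -/
theorem good_unbalanced (d j k : ℕ) (hkj : k + j = p) (hk1 : 1 ≤ k)
    (hk : (j + 1) ^ (d + 1) * (j - 1) + (d + 1) * j ^ 2 < k) :
    ¬ Balanced k p d (Good p d) := by
  classical
  rintro ⟨w, ⟨q0, hq0⟩, hsup, hbal⟩
  set v := q0.1 with hv
  have hcov : ∀ q, q < k → ∃ a y : Fin d → ZMod p, y ≠ 0 ∧
      (∀ i : ℕ, i < k → a + i • y ∈ Good p d) ∧ a + q • y = v := by
    intro q hq
    have h1 := hbal q hq v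
    have h2 : 0 < ∑ r : (Fin d → ZMod p) × (Fin d → ZMod p), if r.1 = v then w r else 0 := by
      apply Finset.sum_pos' (fun _ _ => Nat.zero_le _)
      exact ⟨q0, Finset.mem_univ _, by rw [if_pos rfl]; exact Nat.pos_of_ne_zero hq0⟩
    rw [← h1] at h2
    obtain ⟨r, _, hr⟩ := Finset.exists_ne_zero_of_sum_ne_zero h2.ne'
    split_ifs at hr with h3
    · exact ⟨r.1, r.2, (hsup r hr).1, (hsup r hr).2, h3⟩
    · exact absurd rfl hr
  let R1 : Finset (ZMod p) := (univ : Finset (Fin (d + 1) → Option (Fin j))).biUnion (fun g =>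
    (pat j (fun e => ∑ i ∈ univ.filter (fun i => g i = some e), bc d v i)).roots.toFinset)
  let R2 : Finset (ZMod p) := (univ : Finset (Fin (d + 1) × Fin j × Fin j)).image (fun t =>
    -((t.2.1 : ℕ) : ZMod p) + bc d v t.1 * (((t.2.1 : ℕ) : ZMod p) - ((t.2.2 : ℕ) : ZMod p)))
  have hR1 : R1.card ≤ (j + 1) ^ (d + 1) * (j - 1) := by
    refine (Finset.card_biUnion_le).trans ?_
    calc _ ≤ ∑ _g : (Fin (d + 1) → Option (Fin j)), (j - 1) := by
          apply Finset.sum_le_sum
          intro g _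
          exact (Multiset.toFinset_card_le _).trans
            ((Polynomial.card_roots' _).trans (pat_deg j _))
      _ = (j + 1) ^ (d + 1) * (j - 1) := by
          rw [Finset.sum_const, Finset.card_univ, smul_eq_mul]
          simp
  have hR2 : R2.card ≤ (d + 1) * j ^ 2 := by
    refine Finset.card_image_le.trans ?_
    rw [Finset.card_univ]
    simp [sq]
  have hinj : k ≤ (R1 ∪ R2).card := by
    have h1 : (range k).card ≤ (R1 ∪ R2).card := by
      apply Finset.card_le_card_of_injOn (fun q => ((q + 1 : ℕ) : ZMod p))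
      · intro q hq
        have hq' : q < k := Finset.mem_range.1 (Finset.mem_coe.1 hq)
        obtain ⟨a, y, hy, hAP, hay⟩ := hcov q hq'
        have hpos : ∀ e : Fin j, ((q + 1 : ℕ) : ZMod p) + ((e : ℕ) : ZMod p) ≠ 0 := by
          intro e
          have h1 : ((q + 1 : ℕ) : ZMod p) + ((e : ℕ) : ZMod p) = ((q + 1 + e : ℕ) : ZMod p) := by
            push_cast
            ring
          rw [h1]
          intro h2
          rw [ZMod.natCast_eq_zero_iff] at h2
          have h3 := Nat.le_of_dvd (by omega) h2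
          have := e.2
          omega
        rw [Finset.mem_coe, Finset.mem_union]
        rcases covered d j k hkj a y hy q hq' hAP v hay with ⟨g, hg, h2⟩ | ⟨i, e, e', h2⟩
        · left
          refine Finset.mem_biUnion.2 ⟨g, Finset.mem_univ _, ?_⟩
          rw [Multiset.mem_toFinset, Polynomial.mem_roots (pat_ne j (by omega) _ hg)]
          exact pat_root j _ _ hpos h2
        · right
          exact Finset.mem_image.2 ⟨(i, e, e'), Finset.mem_univ _, h2.symm⟩
      · intro q hq q' hq' hqq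
        have hq1 : q < k := Finset.mem_range.1 (Finset.mem_coe.1 hq)
        have hq2 : q' < k := Finset.mem_range.1 (Finset.mem_coe.1 hq')
        have h2 : ((q + 1 : ℕ) : ZMod p) = ((q' + 1 : ℕ) : ZMod p) := hqq
        push_cast at h2
        have h3 := add_right_cancel h2
        have h4 := (ZMod.natCast_eq_natCast_iff' _ _ _).1 h3
        rwa [Nat.mod_eq_of_lt (by omega), Nat.mod_eq_of_lt (by omega)] at h4
    rwa [Finset.card_range] at h1
  have h5 := Finset.card_union_le R1 R2
  omega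

/-! ### Counting -/

lemma agree_of (d : ℕ) (x x' : Fin d → ZMod p) (l : Fin (d + 1))
    (h : ∀ i, i ≠ l → bc d x i = bc d x' i) : bc d x = bc d x' := by
  have h1 := sum_bc d x
  have h2 := sum_bc d x'
  rw [← Finset.add_sum_erase univ _ (Finset.mem_univ l)] at h1 h2
  have h3 : ∑ i ∈ univ.erase l, bc d x i = ∑ i ∈ univ.erase l, bc d x' i :=
    Finset.sum_congr rfl (fun i hi => h i (Finset.ne_of_mem_erase hi))
  funext i
  by_cases hi : i = l
  · rw [hi]
    rw [h3] at h1
    linear_combination h1 - h2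
  · exact h i hi

lemma card_le_of_det (d : ℕ) (T : Finset (Fin d → ZMod p)) (U : Finset (Fin (d + 1)))
    (h : ∀ x ∈ T, ∀ x' ∈ T, (∀ i, i ∉ U → bc d x i = bc d x' i) → bc d x = bc d x') :
    T.card ≤ p ^ (d + 1 - U.card) := by
  classical
  have h1 : T.card ≤ (univ : Finset ((Uᶜ : Finset (Fin (d + 1))) → ZMod p)).card := by
    apply Finset.card_le_card_of_injOn (fun x i => bc d x i.1) (fun _ _ => Finset.mem_univ _)
    intro x hx x' hx' hxx
    exact bc_inj d x x' (h x hx x' hx' (fun i hi =>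
      congrFun hxx ⟨i, Finset.mem_compl.2 hi⟩))
  rwa [Finset.card_univ, Fintype.card_fun, ZMod.card, Fintype.card_coe, Finset.card_compl,
    Fintype.card_fin] at h1

lemma hyper_card (d : ℕ) (hd : 1 ≤ d) (i : Fin (d + 1)) (T : Finset (Fin d → ZMod p))
    (hT : ∀ x ∈ T, bc d x i = 0) : T.card ≤ p ^ (d - 1) := by
  classical
  haveI : Nontrivial (Fin (d + 1)) := Fin.nontrivial_iff_two_le.2 (by omega)
  obtain ⟨l, hl⟩ := exists_ne i
  have h1 := card_le_of_det d T {i, l} (by
    intro x hx x' hx' hxx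
    apply agree_of d x x' l
    intro m hm
    by_cases hmi : m = i
    · rw [hmi, hT x hx, hT x' hx']
    · apply hxx
      simp [hmi, hm])
  rw [Finset.card_pair hl.symm] at h1
  rwa [show d + 1 - 2 = d - 1 by omega] at h1

lemma bad_card (d : ℕ) (I : Finset (Fin (d + 1))) (i : Fin (d + 1)) (hi : i ∈ I)
    (T : Finset (Fin d → ZMod p))
    (hT : ∀ x ∈ T, ∑ l ∈ I, bc d x l = 0 ∧ bc d x i = 1) : T.card ≤ p ^ (d - 2) := by
  classical
  rcases Finset.eq_empty_or_nonempty T with h0 | ⟨x0, hx0⟩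
  · rw [h0, Finset.card_empty]
    exact Nat.zero_le _
  have hx1 := hT x0 hx0
  -- another element of `I`
  obtain ⟨i', hi', hne⟩ : ∃ i' ∈ I, i' ≠ i := by
    by_contra hcon
    push Not at hcon
    have h1 : I = {i} := by
      ext m
      rw [Finset.mem_singleton]
      exact ⟨fun hm => hcon m hm, fun hm => hm ▸ hi⟩
    rw [h1, Finset.sum_singleton, hx1.2] at hx1
    exact one_ne_zero hx1.1
  obtain ⟨l, hl⟩ : ∃ l, l ∉ I := by
    by_contra hcon
    push Not at hcon
    have h1 : I = univ := Finset.eq_univ_iff_forall.2 hcon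
    have h2 := hx1.1
    rw [h1, sum_bc] at h2
    exact one_ne_zero h2
  have hli : l ≠ i := fun h => hl (h ▸ hi)
  have hli' : l ≠ i' := fun h => hl (h ▸ hi')
  have h1 := card_le_of_det d T {i, i', l} (by
    intro x hx x' hx' hxx
    apply agree_of d x x' l
    have h2 : ∀ m, m ≠ l → m ≠ i' → bc d x m = bc d x' m := by
      intro m hm hm'
      by_cases hmi : m = i
      · rw [hmi, (hT x hx).2, (hT x' hx').2]
      · apply hxx
        simp [hmi, hm, hm']
    intro m hm
    by_cases hm' : m = i'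
    · have h3 := (hT x hx).1
      have h4 := (hT x' hx').1
      rw [← Finset.add_sum_erase I _ hi'] at h3 h4
      have h5 : ∑ i ∈ I.erase i', bc d x i = ∑ i ∈ I.erase i', bc d x' i := by
        apply Finset.sum_congr rfl
        intro r hr
        apply h2 r
        · intro h6
          exact hl (h6 ▸ Finset.mem_of_mem_erase hr)
        · exact Finset.ne_of_mem_erase hr
      rw [hm']
      rw [h5] at h3
      linear_combination h3 - h4
    · exact h2 m hm hm')
  have h2 : ({i, i', l} : Finset (Fin (d + 1))).card = 3 :=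
    Finset.card_eq_three.2 ⟨i, i', l, hne.symm, hli.symm, hli'.symm, rfl⟩
  rw [h2] at h1
  rwa [show d + 1 - 3 = d - 2 by omega] at h1

theorem good_card (d : ℕ) (hd : 1 ≤ d) :
    p ^ d ≤ (Good p d).card + (d + 1) * p ^ (d - 1) + 2 ^ (d + 1) * p ^ (d - 2) := by
  classical
  let H : Fin (d + 1) → Finset (Fin d → ZMod p) := fun i => univ.filter (fun x => bc d x i = 0)
  let T : Finset (Fin (d + 1)) → Finset (Fin d → ZMod p) := fun I => univ.filter (fun x =>
    ∃ i ∈ I, (∀ l ∈ I, i ≤ l) ∧ ∑ l ∈ I, bc d x l = 0 ∧ bc d x i = 1)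
  have hH : ∀ i, (H i).card ≤ p ^ (d - 1) := fun i =>
    hyper_card d hd i (H i) (fun x hx => (Finset.mem_filter.1 hx).2)
  have hT : ∀ I, (T I).card ≤ p ^ (d - 2) := by
    intro I
    by_cases hI : ∃ i ∈ I, ∀ l ∈ I, i ≤ l
    · obtain ⟨i, hi, hmin⟩ := hI
      apply bad_card d I i hi (T I)
      intro x hx
      obtain ⟨i', hi', hmin', h1, h2⟩ := (Finset.mem_filter.1 hx).2
      have h3 : i' = i := le_antisymm (hmin' i hi) (hmin i' hi')
      rw [h3] at h2
      exact ⟨h1, h2⟩
    · have h1 : T I = ∅ := by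
        apply Finset.eq_empty_of_forall_notMem
        intro x hx
        obtain ⟨i', hi', hmin', _, _⟩ := (Finset.mem_filter.1 hx).2
        exact hI ⟨i', hi', hmin'⟩
      rw [h1, Finset.card_empty]
      exact Nat.zero_le _
  have hcover : (univ : Finset (Fin d → ZMod p)) ⊆
      (Good p d ∪ univ.biUnion H) ∪ univ.biUnion T := by
    intro x _
    by_cases hx : x ∈ Good p d
    · exact Finset.mem_union_left _ (Finset.mem_union_left _ hx)
    · rw [mem_good] at hx
      by_cases h1 : ∀ i, bc d x i ≠ 0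
      · have h2 : ∃ I : Finset (Fin (d + 1)), ∃ i ∈ I, (∀ l ∈ I, i ≤ l) ∧
            ∑ l ∈ I, bc d x l = 0 ∧ bc d x i = 1 := by
          by_contra hcon
          push Not at hcon
          exact hx ⟨h1, fun I i hi hmin hs => hcon I i hi hmin hs⟩
        obtain ⟨I, hI⟩ := h2
        apply Finset.mem_union_right
        exact Finset.mem_biUnion.2 ⟨I, Finset.mem_univ _,
          Finset.mem_filter.2 ⟨Finset.mem_univ _, hI⟩⟩
      · push Not at h1
        obtain ⟨i, hi⟩ := h1
        apply Finset.mem_union_left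
        apply Finset.mem_union_right
        exact Finset.mem_biUnion.2 ⟨i, Finset.mem_univ _,
          Finset.mem_filter.2 ⟨Finset.mem_univ _, hi⟩⟩
  have h1 := Finset.card_le_card hcover
  have h2 := Finset.card_union_le (Good p d ∪ univ.biUnion H) (univ.biUnion T)
  have h3 := Finset.card_union_le (Good p d) (univ.biUnion H)
  have h4 : (univ.biUnion H).card ≤ (d + 1) * p ^ (d - 1) := by
    refine Finset.card_biUnion_le.trans ?_
    refine (Finset.sum_le_sum (fun i _ => hH i)).trans ?_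
    rw [Finset.sum_const, Finset.card_univ, Fintype.card_fin, smul_eq_mul]
  have h5 : (univ.biUnion T).card ≤ 2 ^ (d + 1) * p ^ (d - 2) := by
    refine Finset.card_biUnion_le.trans ?_
    refine (Finset.sum_le_sum (fun i _ => hT i)).trans ?_
    rw [Finset.sum_const, Finset.card_univ, Fintype.card_finset, Fintype.card_fin, smul_eq_mul]
  have h6 : (univ : Finset (Fin d → ZMod p)).card = p ^ d := by
    rw [Finset.card_univ, Fintype.card_fun, ZMod.card, Fintype.card_fin]
  omega

end Pool.Agent.R790.AP.Long
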