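import Pool.Agent.R790.AP.Long

/-!
# Long progressions: the bounds for the growth rate
-/

set_option autoImplicit false

namespace Pool.Agent.R790.AP.Long

open Finset
open Pool.Agent.Results.MP_b30443_co.BlockSymmetric (Balanced M lam le_M M_le_lam lam_nonneg)

/-- the bound in dimension `d` -/
theorem lam_dim (p d j k : ℕ) (hp : p.Prime) (hd : 1 ≤ d) (hkj : k + j = p) (hk1 : 1 ≤ k)
    (hk : (j + 1) ^ (d + 1) * (j - 1) + (d + 1) * j ^ 2 < k) :
    (p : ℝ) ^ d ≤ lam k p ^ d + (d + 1) * (p : ℝ) ^ (d - 1) +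
      2 ^ (d + 1) * (p : ℝ) ^ (d - 2) := by
  haveI : Fact p.Prime := ⟨hp⟩
  have h1 := good_card (p := p) d hd
  have h2 := le_M (good_unbalanced (p := p) d j k hkj hk1 hk)
  have h3 := M_le_lam (p := p) k d hk1 hd
  have h4 : p ^ d ≤ M k p d + (d + 1) * p ^ (d - 1) + 2 ^ (d + 1) * p ^ (d - 2) := by omega
  have h5 : (p : ℝ) ^ d ≤ (M k p d : ℝ) + (d + 1) * (p : ℝ) ^ (d - 1) +
      2 ^ (d + 1) * (p : ℝ) ^ (d - 2) := by exact_mod_cast h4
  linarith

lemma threshold (d j p : ℕ) (hj : j ≤ p) (h : (j + 1) ^ (d + 3) ≤ p) (hp : 1 ≤ p) (hj1 : 1 ≤ j) :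
    (j + 1) ^ (d + 1) * (j - 1) + (d + 1) * j ^ 2 < p - j := by
  have h1 : (j + 1) ^ (d + 3) = (j + 1) ^ (d + 1) * (j + 1) ^ 2 := by ring
  have h2 : d + 1 < 2 ^ (d + 1) := Nat.lt_two_pow_self
  have h3 : 2 ^ (d + 1) ≤ (j + 1) ^ (d + 1) := Nat.pow_le_pow_left (by omega) _
  set X := (j + 1) ^ (d + 1) with hX
  have h4 : (j + 1) ^ 2 = (j - 1) + (j ^ 2 + j + 2) := by
    obtain ⟨i, rfl⟩ : ∃ i, j = i + 1 := ⟨j - 1, by omega⟩
    rw [Nat.add_sub_cancel]
    ring
  rw [h1, h4, mul_add] at h
  have h5 : (d + 2) * (j ^ 2 + j + 2) ≤ X * (j ^ 2 + j + 2) :=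
    Nat.mul_le_mul_right _ (by omega)
  have h6 : (d + 1) * j ^ 2 + j < (d + 2) * (j ^ 2 + j + 2) := by nlinarith [sq_nonneg j]
  omega

/-- The growth rate for progressions of length close to `p`. -/
theorem lam_long (ε : ℝ) (hε : 0 < ε) : ∃ m P : ℕ, ∀ p k : ℕ, p.Prime → P ≤ p → k ≤ p →
    (p - k + 1) ^ m ≤ p → (p : ℝ) - 1 - ε ≤ lam k p := by
  obtain ⟨d, hd⟩ := exists_nat_gt (2 / ε)
  have hdε : 2 ≤ (d : ℝ) * ε := by
    rw [div_lt_iff₀ hε] at hd
    exact hd.le
  have hd0 : 1 ≤ d := by
    rcases Nat.eq_zero_or_pos d with h | h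
    · rw [h] at hdε
      norm_num at hdε
    · exact h
  set D : ℕ := d + 1 with hD
  have hDε : 2 ≤ (D : ℝ) * ε := by
    rw [hD]
    push_cast
    nlinarith
  set E : ℝ := 2 ^ (D + 1) with hE
  have hE0 : 0 < E := by positivity
  obtain ⟨P, hP⟩ := exists_nat_gt (E + (D + 1) * (D * (1 + ε)) + E * (D * (1 + ε)))
  refine ⟨D + 3, P, fun p k hp hPp hkp hm => ?_⟩
  haveI : Fact p.Prime := ⟨hp⟩
  have hp1 : 1 ≤ p := hp.one_lt.le
  have hlam0 : 0 ≤ lam k p := lam_nonneg k
  by_cases hL : (p : ℝ) - 1 - ε ≤ 0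
  · linarith
  push Not at hL
  have hmono : ∀ j : ℕ, 1 ≤ k → k + j = p → (p : ℝ) - 1 - ε ≤ lam k p := by
    intro j hk1 hkj
    have hpk : p - k = j := by omega
    rw [hpk] at hm
    have h2 : p - j = k := by omega
    have h1 : (j + 1) ^ (D + 1) * (j - 1) + (D + 1) * j ^ 2 < k := by
      rcases Nat.eq_zero_or_pos j with hj | hj
      · subst hj
        have h0 : (0 + 1) ^ (D + 1) * (0 - 1) + (D + 1) * 0 ^ 2 = 0 := by simp
        omega
      · have h1 := threshold D j p (by omega) hm hp1 hj
        rwa [h2] at h1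
    have h3 := lam_dim p D j k hp (by omega) hkj hk1 h1
    have hpR : (1 : ℝ) ≤ p := by exact_mod_cast hp1
    have hp0 : (0 : ℝ) < p := by linarith
    set x : ℝ := (1 + ε) / p with hx
    have hx0 : 0 < x := by positivity
    have hpx : (p : ℝ) * x = 1 + ε := by
      rw [hx]
      field_simp
    have hLx : (p : ℝ) - 1 - ε = p * (1 - x) := by
      rw [mul_sub, hpx]
      ring
    have h4 : ((p : ℝ) - 1 - ε) ^ D * (1 + D * x) ≤ (p : ℝ) ^ D := by
      calc ((p : ℝ) - 1 - ε) ^ D * (1 + D * x) ≤ ((p : ℝ) - 1 - ε) ^ D * (1 + x) ^ D := by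
            apply mul_le_mul_of_nonneg_left _ (by positivity)
            exact one_add_mul_le_pow (by linarith) D
        _ = (((p : ℝ) - 1 - ε) * (1 + x)) ^ D := by rw [mul_pow]
        _ ≤ (p : ℝ) ^ D := by
            apply pow_le_pow_left₀ (by positivity)
            rw [hLx]
            have : (p : ℝ) * (1 - x) * (1 + x) = p - p * x ^ 2 := by ring
            rw [this]
            have : 0 ≤ (p : ℝ) * x ^ 2 := by positivity
            linarith
    set R : ℝ := (p : ℝ) ^ (D - 2) * ((p : ℝ) ^ 2 - (D + 1) * p - E) with hR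
    have hD2 : D = (D - 2) + 2 := by omega
    have e1 : (p : ℝ) ^ D = (p : ℝ) ^ (D - 2) * (p : ℝ) ^ 2 := by
      conv_lhs => rw [hD2]
      rw [pow_add]
    have e2 : (p : ℝ) ^ (D - 1) = (p : ℝ) ^ (D - 2) * p := by
      have : D - 1 = (D - 2) + 1 := by omega
      rw [this, pow_succ]
    have h5 : R ≤ lam k p ^ D := by
      rw [e1, e2] at h3
      rw [hR]
      linarith
    have hPp' : E + (D + 1) * (D * (1 + ε)) + E * (D * (1 + ε)) < p := by
      have : (P : ℝ) ≤ p := by exact_mod_cast hPp
      linarith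
    have h6 : (p : ℝ) ^ 2 ≤ ((p : ℝ) ^ 2 - (D + 1) * p - E) * (1 + D * x) := by
      have e3 : ((p : ℝ) ^ 2 - (D + 1) * p - E) * (1 + D * x) =
          (p : ℝ) ^ 2 + ((D * ε - 1) * p - (E + (D + 1) * (D * (1 + ε)) + E * (D * x))) := by
        have e4 : (p : ℝ) ^ 2 * (D * x) = p * (D * (1 + ε)) := by
          rw [← hpx]
          ring
        have e5 : (p : ℝ) * (D * x) = D * (1 + ε) := by
          rw [← hpx]
          ring
        calc ((p : ℝ) ^ 2 - (D + 1) * p - E) * (1 + D * x)
            = (p : ℝ) ^ 2 - (D + 1) * p - E + (p : ℝ) ^ 2 * (D * x) -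
              (D + 1) * (p * (D * x)) - E * (D * x) := by ring
          _ = _ := by
            rw [e4, e5]
            ring
      rw [e3]
      have h7 : x ≤ 1 + ε := by
        rw [hx]
        exact div_le_self (by linarith) hpR
      have h8 : E * (D * x) ≤ E * (D * (1 + ε)) := by
        apply mul_le_mul_of_nonneg_left _ hE0.le
        exact mul_le_mul_of_nonneg_left h7 (by positivity)
      have h9 : (p : ℝ) ≤ (D * ε - 1) * p := by nlinarith
      linarith
    have h7 : (p : ℝ) ^ D ≤ R * (1 + D * x) := by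
      rw [e1, hR, mul_assoc]
      exact mul_le_mul_of_nonneg_left h6 (by positivity)
    have h8 : ((p : ℝ) - 1 - ε) ^ D * (1 + D * x) ≤ R * (1 + D * x) := h4.trans h7
    have h9 : (0 : ℝ) < 1 + D * x := by positivity
    have h10 : ((p : ℝ) - 1 - ε) ^ D ≤ lam k p ^ D := (le_of_mul_le_mul_right h8 h9).trans h5
    exact le_of_pow_le_pow_left₀ (by omega) hlam0 h10
  rcases Nat.eq_zero_or_pos k with h | h
  · exfalso
    subst h
    rw [Nat.sub_zero] at hm
    have h1 : p + 1 ≤ (p + 1) ^ (D + 3) := Nat.le_self_pow (by omega) _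
    omega
  · exact hmono (p - k) h (by omega)

/-- the exact bound in the plane -/
theorem good_card_two {p : ℕ} [hp : Fact p.Prime] (h3 : 3 ≤ p) :
    p ^ 2 + 1 ≤ (Good p 2).card + 3 * p := by
  classical
  haveI : Nontrivial (ZMod p) := inferInstance
  let H : Fin 3 → Finset (Fin 2 → ZMod p) := fun i => univ.filter (fun x => bc 2 x i = 0)
  have hH : ∀ i, (H i).card ≤ p := fun i => by
    have := hyper_card 2 (by norm_num) i (H i) (fun x hx => (Finset.mem_filter.1 hx).2)
    simpa using this
  have b0 : ∀ x : Fin 2 → ZMod p, bc 2 x 0 = 1 - (x 0 + x 1) := by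
    intro x
    simp [bc]
  have b1 : ∀ x : Fin 2 → ZMod p, bc 2 x 1 = x 0 := fun x => rfl
  have b2 : ∀ x : Fin 2 → ZMod p, bc 2 x 2 = x 1 := fun x => rfl
  let T : Finset (Fin 2 → ZMod p) := {![-1, 1], ![1, -1]}
  have hT : T.card ≤ 2 := Finset.card_le_two
  have hi1 : 1 ≤ (H 1 ∩ H 2).card := by
    rw [Nat.one_le_iff_ne_zero, Finset.card_ne_zero]
    refine ⟨![0, 0], ?_⟩
    simp [H, b1, b2]
  have hi2 : 2 ≤ ((H 1 ∪ H 2) ∩ H 0).card := by
    have h1 : ({![0, 1], ![1, 0]} : Finset (Fin 2 → ZMod p)).card = 2 := by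
      apply Finset.card_pair
      intro h
      have := congrFun h 0
      simp at this
    refine h1.symm.le.trans ?_
    apply Finset.card_le_card
    intro x hx
    rw [Finset.mem_insert, Finset.mem_singleton] at hx
    rcases hx with rfl | rfl
    · simp [H, b0, b1, b2]
    · simp [H, b0, b1, b2]
  have hcover : (univ : Finset (Fin 2 → ZMod p)) ⊆ (Good p 2 ∪ ((H 1 ∪ H 2) ∪ H 0)) ∪ T := by
    intro x _
    by_cases hx : x ∈ Good p 2
    · exact Finset.mem_union_left _ (Finset.mem_union_left _ hx)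
    by_cases h1 : ∀ i, bc 2 x i ≠ 0
    · apply Finset.mem_union_right
      rw [mem_good] at hx
      have h2 : ∃ I : Finset (Fin 3), ∃ i ∈ I, (∀ l ∈ I, i ≤ l) ∧
          ∑ l ∈ I, bc 2 x l = 0 ∧ bc 2 x i = 1 := by
        by_contra hcon
        push Not at hcon
        exact hx ⟨h1, fun I i hi hmin hs => hcon I i hi hmin hs⟩
      obtain ⟨I, i, hi, hmin, hs, hone⟩ := h2
      have e0 := h1 0
      have e1 := h1 1
      have e2 := h1 2
      rw [b0] at e0
      rw [b1] at e1
      rw [b2] at e2
      have hs' : (if (0 : Fin 3) ∈ I then 1 - (x 0 + x 1) else 0) +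
          (if (1 : Fin 3) ∈ I then x 0 else 0) + (if (2 : Fin 3) ∈ I then x 1 else 0) = 0 := by
        have h3 := Finset.sum_ite_mem univ I (fun l => bc 2 x l)
        rw [Finset.univ_inter, Fin.sum_univ_three, b0, b1, b2, hs] at h3
        exact h3
      have key : ∀ u v : ZMod p, x 0 = u → x 1 = v → x = ![u, v] := by
        intro u v hu hv
        funext l
        fin_cases l
        · exact hu
        · exact hv
      have hz : (1 : ZMod p) ≠ 0 := one_ne_zero
      rw [Finset.mem_insert, Finset.mem_singleton]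
      by_cases m0 : (0 : Fin 3) ∈ I
      · have hi0 : i = 0 := le_antisymm (hmin 0 m0) (Fin.zero_le _)
        rw [hi0, b0] at hone
        have h4 : x 0 + x 1 = 0 := by linear_combination -hone
        by_cases m1 : (1 : Fin 3) ∈ I
        · by_cases m2 : (2 : Fin 3) ∈ I
          · rw [if_pos m0, if_pos m1, if_pos m2] at hs'
            exact absurd (by linear_combination hs') hz
          · rw [if_pos m0, if_pos m1, if_neg m2] at hs'
            left
            exact key _ _ (by linear_combination hs' + h4) (by linear_combination -hs')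
        · by_cases m2 : (2 : Fin 3) ∈ I
          · rw [if_pos m0, if_neg m1, if_pos m2] at hs'
            right
            exact key _ _ (by linear_combination -hs') (by linear_combination hs' + h4)
          · rw [if_pos m0, if_neg m1, if_neg m2] at hs'
            exact absurd (by linear_combination hs' + h4) hz
      · by_cases m1 : (1 : Fin 3) ∈ I
        · have hi1 : i = 1 := by
            have h5 := hmin 1 m1
            have h6 : i ≠ 0 := fun h => m0 (h ▸ hi)
            revert h5 h6
            fin_cases i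
            · intro _ h
              exact absurd rfl h
            · intro _ _
              rfl
            · intro h
              exact absurd h (by decide)
          rw [hi1, b1] at hone
          by_cases m2 : (2 : Fin 3) ∈ I
          · rw [if_neg m0, if_pos m1, if_pos m2] at hs'
            right
            exact key _ _ hone (by linear_combination hs' - hone)
          · rw [if_neg m0, if_pos m1, if_neg m2] at hs'
            exact absurd (by linear_combination hs' - hone) hz
        · have hi2 : i = 2 := by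
            have h5 : i ≠ 1 := fun h => m1 (h ▸ hi)
            have h6 : i ≠ 0 := fun h => m0 (h ▸ hi)
            revert h5 h6
            fin_cases i
            · intro _ h
              exact absurd rfl h
            · intro h
              exact absurd rfl h
            · intro _ _
              rfl
          rw [hi2] at hi
          rw [hi2, b2] at hone
          rw [if_neg m0, if_neg m1, if_pos hi] at hs'
          exact absurd (by linear_combination hs' - hone) hz
    · push Not at h1
      obtain ⟨i, hi⟩ := h1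
      apply Finset.mem_union_left
      apply Finset.mem_union_right
      have h2 : x ∈ H i := Finset.mem_filter.2 ⟨Finset.mem_univ _, hi⟩
      fin_cases i
      · exact Finset.mem_union_right _ h2
      · exact Finset.mem_union_left _ (Finset.mem_union_left _ h2)
      · exact Finset.mem_union_left _ (Finset.mem_union_right _ h2)
  have h1 := Finset.card_le_card hcover
  have h2 := Finset.card_union_le (Good p 2 ∪ ((H 1 ∪ H 2) ∪ H 0)) T
  have h3 := Finset.card_union_le (Good p 2) ((H 1 ∪ H 2) ∪ H 0)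
  have h4 := Finset.card_union_add_card_inter (H 1) (H 2)
  have h5 := Finset.card_union_add_card_inter (H 1 ∪ H 2) (H 0)
  have h6 : (univ : Finset (Fin 2 → ZMod p)).card = p ^ 2 := by
    rw [Finset.card_univ, Fintype.card_fun, ZMod.card, Fintype.card_fin]
  have := hH 0
  have := hH 1
  have := hH 2
  omega

/-- Progressions of length `p - 1`. -/
theorem lam_near (p : ℕ) (hp : p.Prime) (h5 : 5 ≤ p) :
    (p : ℝ) ^ 2 - 3 * p + 1 ≤ lam (p - 1) p ^ 2 := by
  haveI : Fact p.Prime := ⟨hp⟩
  have h1 := good_card_two (p := p) (by omega)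
  have h2 := le_M (good_unbalanced (p := p) 2 1 (p - 1) (by omega) (by omega) (by
    norm_num
    omega))
  have h3 := M_le_lam (p := p) (p - 1) 2 (by omega) (by norm_num)
  have h4 : p ^ 2 + 1 ≤ M (p - 1) p 2 + 3 * p := by omega
  have h5 : (p : ℝ) ^ 2 + 1 ≤ (M (p - 1) p 2 : ℝ) + 3 * p := by exact_mod_cast h4
  linarith

end Pool.Agent.R790.AP.Long
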